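import Mathlib

namespace Pool.Agent.Results.MP_ee2dc8_co.Positive

open Set MeasureTheory

section Defs

variable {V : Type} [Fintype V] [DecidableEq V]

/-- the point at position `t` of the edge from `u` to `v`; vertices are the unit vectors -/
def pt (u v : V) (t : ℝ) : V → ℝ := (1 - t) • Pi.single u 1 + t • Pi.single v 1

/-- the cake: the geometric realisation of the graph -/
def cake (G : SimpleGraph V) : Set (V → ℝ) :=
  {x | (∃ u, x = Pi.single u 1) ∨ ∃ u v t, G.Adj u v ∧ t ∈ Icc (0 : ℝ) 1 ∧ x = pt u v t}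

/-- a connected piece: a finite union of intervals in edges, any two points joined inside it -/
def ConnPiece (G : SimpleGraph V) (X : Set (V → ℝ)) : Prop :=
  (∃ (ι : Type) (_ : Finite ι) (u v : ι → V) (I : ι → Set ℝ),
    (∀ a, G.Adj (u a) (v a) ∧ I a ⊆ Icc 0 1 ∧ (I a).OrdConnected) ∧
    X = ⋃ a, pt (u a) (v a) '' I a) ∧ ∀ x ∈ X, ∀ y ∈ X, JoinedIn X x y

/-- the additive valuation with density `d u v` (times length) along the edge `u v` -/
noncomputable def val (d : V → V → ℝ) (X : Set (V → ℝ)) : ℝ :=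
  ∑ u, ∑ v, d u v * (volume {t ∈ Icc (0 : ℝ) 1 | pt u v t ∈ X}).toReal

/-- the 1-out-of-`k` maximin share -/
noncomputable def MMS (G : SimpleGraph V) (d : V → V → ℝ) (k : ℕ) : ℝ :=
  sSup {r | ∃ P : Fin k → Set (V → ℝ), (∀ j, ConnPiece G (P j)) ∧
    Pairwise (fun i j => Disjoint (P i) (P j)) ∧ ⋃ j, P j = cake G ∧ r = ⨅ j, val d (P j)}

end Defs

abbrev W := Fin 3 ⊕ Fin 9 ⊕ Fin 9
abbrev hub (j : Fin 3) : W := .inl j
abbrev gd (g : Fin 9) : W := .inr (.inl g)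
abbrev lf (g : Fin 9) : W := .inr (.inr g)

def GG : SimpleGraph W := SimpleGraph.fromRel fun u v =>
  (∃ j g, u = hub j ∧ v = gd g) ∨ ∃ g, u = gd g ∧ v = lf g

def w : Fin 3 → Fin 9 → ℕ :=
  ![![1, 16, 23, 26, 4, 10, 12, 19, 9], ![1, 16, 22, 26, 4, 9, 13, 20, 9],
    ![1, 15, 23, 25, 4, 10, 13, 20, 9]]

def bb : Fin 3 → Fin 9 → Fin 3 :=
  ![![2, 2, 2, 1, 1, 1, 0, 0, 0], ![2, 1, 0, 2, 1, 0, 2, 1, 0], ![2, 1, 0, 1, 0, 2, 0, 2, 2]]

def dd (i : Fin 3) : W → W → ℝ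
  | .inr (.inl g), .inr (.inr g') => if g = g' then w i g else 0
  | _, _ => 0

theorem fst : ∀ a0 a1 a2 a3 a4 a5 a6 a7 a8 : Fin 3, ∃ i : Fin 3,
    ∑ g, (if ![a0, a1, a2, a3, a4, a5, a6, a7, a8] g = i then w i g else 0) ≤ 39 := by
  simp only [Fin.sum_univ_succ, Fin.exists_fin_succ, w, Matrix.cons_val_zero, Matrix.cons_val_succ,
    Finset.univ_eq_empty, Finset.sum_empty, IsEmpty.exists_iff, or_false]
  decide +kernel

theorem fst' (a : Fin 9 → Fin 3) : ∃ i, ∑ g, (if a g = i then w i g else 0) ≤ 39 := by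
  have := fst (a 0) (a 1) (a 2) (a 3) (a 4) (a 5) (a 6) (a 7) (a 8)
  rwa [show ![a 0, a 1, a 2, a 3, a 4, a 5, a 6, a 7, a 8] = a from
    funext fun g => by fin_cases g <;> rfl] at this

theorem w1 : ∀ i j, 40 ≤ ∑ g, if bb i g = j then w i g else 0 := by decide
theorem w2 : ∀ i g, (∑ k, if k = g then w i k else 0) ≤ 39 := by decide

theorem adj1 (j g) : GG.Adj (hub j) (gd g) := by simp [GG]
theorem adj2 (g) : GG.Adj (gd g) (lf g) := by simp [GG]

theorem pt0 (u v : W) : pt u v 0 = Pi.single u 1 := by simp [pt]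
theorem pt1 (u v : W) : pt u v 1 = Pi.single v 1 := by simp [pt]

theorem cake_cases {x} (h : x ∈ cake GG) : (∃ j g, ∃ t ∈ Icc (0 : ℝ) 1, x = pt (hub j) (gd g) t) ∨
    ∃ g, ∃ t ∈ Icc (0 : ℝ) 1, x = pt (gd g) (lf g) t := by
  have sw : ∀ (u v : W) t, pt u v t = pt v u (1 - t) := fun u v t => by simp [pt, add_comm]
  rcases h with ⟨j | g | g, rfl⟩ | ⟨u, v, t, h, ht, rfl⟩
  · exact .inl ⟨j, 0, 0, by simp, (pt0 _ _).symm⟩
  · exact .inr ⟨g, 0, by simp, (pt0 _ _).symm⟩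
  · exact .inr ⟨g, 1, by simp, (pt1 _ _).symm⟩
  have ht' : 1 - t ∈ Icc (0 : ℝ) 1 := ⟨by linarith [ht.2], by linarith [ht.1]⟩
  rcases h.2 with (⟨j, g, rfl, rfl⟩ | ⟨g, rfl, rfl⟩) | ⟨j, g, rfl, rfl⟩ | ⟨g, rfl, rfl⟩
  exacts [.inl ⟨j, g, t, ht, rfl⟩, .inr ⟨g, t, ht, rfl⟩, .inl ⟨j, g, _, ht', sw ..⟩,
    .inr ⟨g, _, ht', sw ..⟩]

theorem val_eq (i X) : val (dd i) X =
    ∑ g, w i g * (volume {t ∈ Icc (0 : ℝ) 1 | pt (gd g) (lf g) t ∈ X}).toReal := by
  simp only [val, dd, Fintype.sum_sum_type, zero_mul, Finset.sum_const_zero, zero_add, add_zero,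
    ite_mul, Finset.sum_ite_eq, Finset.mem_univ, if_true]

theorem vol_le (p : ℝ → Prop) : (volume {t ∈ Icc (0 : ℝ) 1 | p t}).toReal ≤ 1 :=
  ENNReal.toReal_le_of_le_ofReal zero_le_one ((measure_mono (sep_subset _ _)).trans (by simp))

theorem val_le (i X) (p : Fin 9 → Prop) [DecidablePred p]
    (h : ∀ g, ∀ t ∈ Icc (0 : ℝ) 1, pt (gd g) (lf g) t ∈ X → p g) :
    val (dd i) X ≤ (∑ g, if p g then w i g else 0 : ℕ) := by
  rw [val_eq]
  push_cast
  refine Finset.sum_le_sum fun g _ => ?_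
  split_ifs with k
  · exact mul_le_of_le_one_right (by positivity) (vol_le _)
  · rw [eq_empty_of_forall_notMem fun t (ht : t ∈ {t ∈ Icc (0 : ℝ) 1 | pt (gd g) (lf g) t ∈ X}) =>
      k (h g t ht.1 ht.2)]
    simp

theorem sub_cake {X} (h : ConnPiece GG X) : X ⊆ cake GG := by
  obtain ⟨⟨ι, -, u, v, I, h, rfl⟩, -⟩ := h
  exact iUnion_subset fun a => by
    rintro _ ⟨t, ht, rfl⟩; exact .inr ⟨_, _, t, (h a).1, (h a).2.1 ht, rfl⟩

theorem trap {X} (h : ConnPiece GG X) {g} (hg : Pi.single (gd g) 1 ∉ X) {t}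
    (ht : pt (gd g) (lf g) t ∈ X) {g' s} (hs : pt (gd g') (lf g') s ∈ X) : g' = g := by
  by_contra ne
  have key : ∀ x ∈ X, (0 < x (lf g) ∧ x (lf g) + x (gd g) = 1) ∨ x (lf g) = 0 ∧ x (gd g) < 1 := by
    intro x hx
    rcases cake_cases (sub_cake h hx) with ⟨j, k, r, hr, rfl⟩ | ⟨k, r, hr, rfl⟩
    · by_cases e : k = g
      · subst e
        have : r ≠ 1 := by rintro rfl; exact hg (pt1 (hub j) _ ▸ hx)
        simpa [pt] using lt_of_le_of_ne hr.2 this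
      · simp [pt, Ne.symm e]
    · by_cases e : k = g
      · subst e
        have : 0 ≠ r := by rintro rfl; exact hg (pt0 _ (lf k) ▸ hx)
        simpa [pt] using .inl (lt_of_le_of_ne hr.1 this)
      · simp [pt, Ne.symm e]
  obtain ⟨x, hx, k1, k2⟩ := (IsPathConnected.isConnected ⟨_, ht, fun y hy => h.2 _ ht y hy⟩).2
    {x | 0 < x (lf g)} {x | x (lf g) + x (gd g) < 1} (isOpen_lt (by fun_prop) (by fun_prop))
    (isOpen_lt (by fun_prop) (by fun_prop))
    (fun x hx => (key x hx).imp (·.1) fun k => by simp [k])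
    ⟨_, ht, ((key _ ht).resolve_right fun k => by simp [pt] at k; simp [k.1] at k).1⟩
    ⟨_, hs, by simp [pt, Ne.symm ne]⟩
  simp only [mem_ofPred] at k1 k2
  rcases key x hx with k | k <;> linarith [k.1, k.2]

def uu (j : Fin 3) : Fin 9 ⊕ Fin 9 → W := Sum.elim (fun _ => hub j) gd
def vv : Fin 9 ⊕ Fin 9 → W := Sum.elim gd lf
def II (i j : Fin 3) : Fin 9 ⊕ Fin 9 → Set ℝ :=
  Sum.elim (fun g => if bb i g = j then Icc 0 1 else Ico 0 1)
    fun g => if bb i g = j then Icc 0 1 else ∅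
def PP (i j : Fin 3) : Set (W → ℝ) := ⋃ a, pt (uu j a) (vv a) '' II i j a

theorem II_ok (i j a) : II i j a ⊆ Icc 0 1 ∧ (II i j a).OrdConnected := by
  rcases a with g | g <;> simp only [II, Sum.elim_inl, Sum.elim_inr] <;> split_ifs
  exacts [⟨Subset.rfl, ordConnected_Icc⟩, ⟨Ico_subset_Icc_self, ordConnected_Ico⟩,
    ⟨Subset.rfl, ordConnected_Icc⟩, ⟨empty_subset _, ordConnected_empty⟩]

theorem PP_conn (i j) : ConnPiece GG (PP i j) := by
  refine ⟨⟨_, inferInstance, _, _, _, fun a => ⟨?_, II_ok i j a⟩, rfl⟩, ?_⟩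
  · rcases a with g | g
    exacts [adj1 _ _, adj2 _]
  have J : ∀ a, ∀ s ∈ II i j a, ∀ t ∈ II i j a,
      JoinedIn (PP i j) (pt (uu j a) (vv a) s) (pt (uu j a) (vv a) t) := fun a s hs t ht =>
    ((((II_ok i j a).2.convex.isPathConnected ⟨s, hs⟩).image (by unfold pt; fun_prop)).joinedIn
      _ ⟨s, hs, rfl⟩ _ ⟨t, ht, rfl⟩).mono (subset_iUnion (fun a => pt (uu j a) (vv a) '' II i j a) a)
  have K : ∀ x ∈ PP i j, JoinedIn (PP i j) x (Pi.single (hub j) 1) := by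
    intro x hx
    obtain ⟨g | g, t, ht, rfl⟩ := mem_iUnion.1 hx
    · exact pt0 (hub j) (gd g) ▸ J _ t ht 0 (by simp only [II, Sum.elim_inl]; split_ifs <;> simp)
    · have e : bb i g = j := by by_contra e; simp [II, e] at ht
      have k1 := J (.inr g) t ht 0 (by simp [II, e])
      have k2 := J (.inl g) 1 (by simp [II, e]) 0 (by simp [II, e])
      rw [pt0] at k1 k2
      rw [pt1] at k2
      exact k1.trans k2
  exact fun x hx y hy => (K x hx).trans (K y hy).symm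

theorem PP_inv {i j x} (h : x ∈ PP i j) : (x (hub j) ≠ 0 ∧ ∀ k ≠ j, x (hub k) = 0) ∨
    (∀ k, x (hub k) = 0) ∧ ∃ g, bb i g = j ∧ ∀ k, x (gd k) + x (lf k) = if k = g then 1 else 0 := by
  obtain ⟨g | g, t, ht, rfl⟩ := mem_iUnion.1 h
  · by_cases e : t = 1
    · subst e
      refine .inr ⟨by simp [pt, vv], g, by by_contra e; simp [II, e] at ht, fun k => ?_⟩
      simp [pt, vv, Pi.single_apply]
    · exact .inl ⟨by simpa [pt, uu, vv, sub_eq_zero] using Ne.symm e, fun k hk => by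
        simp [pt, uu, vv, hk]⟩
  · refine .inr ⟨by simp [pt, uu, vv], g, by by_contra e; simp [II, e] at ht, fun k => ?_⟩
    by_cases e : k = g <;> simp [pt, uu, vv, e]

theorem mms (i) : 40 ≤ MMS GG (dd i) 3 := by
  have m2 : ∀ g, ∀ t ∈ Icc (0 : ℝ) 1, pt (gd g) (lf g) t ∈ PP i (bb i g) := fun g t ht =>
    mem_iUnion.2 ⟨.inr g, t, by simpa [II] using ht, rfl⟩
  refine le_csSup_of_le ⟨(∑ g, if True then w i g else 0 : ℕ), ?_⟩
    ⟨PP i, PP_conn i, fun j k ne => disjoint_left.2 fun x h1 h2 => ?_, ?_, rfl⟩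
    (le_ciInf fun j => ?_)
  · rintro _ ⟨P, -, -, -, rfl⟩
    exact (ciInf_le (Finite.bddBelow_range _) 0).trans (val_le i _ (fun _ => True) (by simp))
  · rcases PP_inv h1 with a | ⟨a, g, e, b⟩ <;> rcases PP_inv h2 with c | ⟨c, g', e', d⟩
    · exact a.1 (c.2 _ ne)
    · exact a.1 (c _)
    · exact c.1 (a _)
    · have := (b g).symm.trans (d g)
      rw [if_pos rfl, if_neg (by rintro rfl; exact ne (e.symm.trans e'))] at this
      exact one_ne_zero this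
  · refine (iUnion_subset fun j => sub_cake (PP_conn i j)).antisymm fun x hx => ?_
    rcases cake_cases hx with ⟨j, g, t, ht, rfl⟩ | ⟨g, t, ht, rfl⟩
    · by_cases e : t = 1
      · rw [e, pt1, ← pt0 _ (lf g)]
        exact mem_iUnion.2 ⟨_, m2 g 0 (by simp)⟩
      · refine mem_iUnion.2 ⟨j, mem_iUnion.2 ⟨.inl g, t, ?_, rfl⟩⟩
        simp only [II, Sum.elim_inl]
        split_ifs
        exacts [ht, ⟨ht.1, lt_of_le_of_ne ht.2 e⟩]
    · exact mem_iUnion.2 ⟨_, m2 g t ht⟩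
  · have := w1 i j
    refine le_trans (by exact_mod_cast this) (?_ : ((∑ g, if bb i g = j then w i g else 0 : ℕ) : ℝ) ≤ _)
    rw [val_eq]
    push_cast
    refine Finset.sum_le_sum fun g _ => ?_
    split_ifs with e
    · rw [sep_eq_self_iff_mem_true.2 fun t ht => e ▸ m2 g t ht]; simp
    · positivity

theorem result : ∃ (V : Type) (_ : Fintype V) (_ : DecidableEq V) (G : SimpleGraph V) (n : ℕ)
    (d : Fin n → V → V → ℝ), 1 ≤ n ∧ (∀ i u v, 0 ≤ d i u v ∧ (d i u v ≠ 0 → G.Adj u v)) ∧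
    ∀ X : Fin n → Set (V → ℝ), (∀ i, ConnPiece G (X i)) →
      Pairwise (fun i j => Disjoint (X i) (X j)) → ∃ i, val (d i) (X i) < MMS G (d i) n := by
  classical
  refine ⟨W, inferInstance, inferInstance, GG, 3, dd, by omega, ?_, fun X hX hd => ?_⟩
  · rintro i (u | u | u) (v | v | v) <;> simp only [dd, le_refl, ne_eq, not_true, true_and,
      false_imp_iff]
    split_ifs with e
    · exact ⟨by positivity, fun _ => e ▸ adj2 u⟩
    · simp
  suffices ∃ i, val (dd i) (X i) ≤ (39 : ℕ) by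
    obtain ⟨i, h⟩ := this
    exact ⟨i, by push_cast at h; linarith [mms i]⟩
  by_cases c : ∃ i g t, Pi.single (gd g) 1 ∉ X i ∧ pt (gd g) (lf g) t ∈ X i
  · obtain ⟨i, g, t, h1, h2⟩ := c
    refine ⟨i, (val_le i _ (· = g) fun k s _ hs => trap (hX i) h1 h2 hs).trans ?_⟩
    exact_mod_cast w2 i g
  obtain ⟨i, h⟩ := fst' fun g => if h : ∃ i, Pi.single (gd g) 1 ∈ X i then h.choose else 0
  refine ⟨i, (val_le i _ _ fun g t _ ht => ?_).trans (by exact_mod_cast h)⟩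
  have k : Pi.single (gd g) 1 ∈ X i := by_contra fun k => c ⟨i, g, t, k, ht⟩
  rw [dif_pos ⟨i, k⟩]
  by_contra ne
  exact disjoint_left.1 (hd ne) (Exists.choose_spec (⟨i, k⟩ : ∃ i, Pi.single (gd g) 1 ∈ X i)) k

end Pool.Agent.Results.MP_ee2dc8_co.Positive
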